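import Pool.Agent.Lib.MP_fd67f7_an.Defs
import Pool.Agent.Lib.MP_fd67f7_an.Symbolic

set_option autoImplicit false

open Pool.Agent.Lib.MP_fd67f7_an

namespace Pool.Agent.Results.MP_fd67f7_an.Disproof

/-- There is a continuous self-map of a dendrite with an uncountable DC2½ set but without any DC2
pair. -/
theorem result :
    ∃ (X : Type) (_ : MetricSpace X) (f : X → X), IsDendrite X ∧ Continuous f ∧
      (∃ S : Set X, ¬ S.Countable ∧ ∀ x ∈ S, ∀ y ∈ S, x ≠ y → IsDC25Pair f x y) ∧
      ∀ x y : X, ¬ IsDC2Pair f x y :=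
  ⟨Hull X0, inferInstance, F, main⟩

end Pool.Agent.Results.MP_fd67f7_an.Disproof
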